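import Mathlib

/-! Powers of ideals generated by variables: membership by exponents, and the primary property. -/

open MvPolynomial

namespace Q37.VNum

variable {σ : Type*} [DecidableEq σ] {K : Type*} [Field K]

/-- The ideal generated by the variables in `s`. -/
noncomputable def varI (K : Type*) [Field K] (s : Finset σ) : Ideal (MvPolynomial σ K) :=
  Ideal.span ((fun v => X v) '' (s : Set σ))

/-- The degree of an exponent vector in the variables of `s`. -/
def sdeg (s : Finset σ) (a : σ →₀ ℕ) : ℕ := ∑ v ∈ s, a v

/-- The substitution `X v ↦ T * X v` for `v ∈ s`. -/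
noncomputable def phi (K : Type*) [Field K] (s : Finset σ) :
    MvPolynomial σ K →ₐ[K] Polynomial (MvPolynomial σ K) :=
  aeval (fun v => if v ∈ s then Polynomial.X * Polynomial.C (X v) else Polynomial.C (X v))

theorem phi_X (s : Finset σ) (v : σ) :
    phi K s (X v) = if v ∈ s then Polynomial.X * Polynomial.C (X v) else Polynomial.C (X v) := by
  simp [phi]

theorem phi_X' (s : Finset σ) (v : σ) :
    phi K s (X v) = Polynomial.X ^ (if v ∈ s then 1 else 0) * Polynomial.C (X v) := by
  rw [phi_X]; split_ifs <;> simp

theorem phi_monomial (s : Finset σ) (a : σ →₀ ℕ) (c : K) :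
    phi K s (monomial a c) = Polynomial.X ^ (sdeg s a) * Polynomial.C (monomial a c) := by
  have h1 : (monomial a c : MvPolynomial σ K) = C c * ∏ v ∈ a.support ∪ s, X v ^ a v := by
    rw [monomial_eq]
    congr 1
    rw [Finsupp.prod]
    apply Finset.prod_subset Finset.subset_union_left
    intro v _ hv
    rw [Finsupp.notMem_support_iff.1 hv, pow_zero]
  have h2 : phi K s (C c : MvPolynomial σ K) = Polynomial.C (C c) := by
    rw [← algebraMap_eq, AlgHom.commutes]
    rfl
  have h3 : sdeg s a = ∑ v ∈ a.support ∪ s, (if v ∈ s then 1 else 0) * a v := by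
    rw [sdeg]
    simp only [ite_mul, one_mul, zero_mul, Finset.sum_ite_mem]
    congr 1
    exact (Finset.inter_eq_right.2 Finset.subset_union_right).symm
  rw [h1, map_mul, map_prod, h2]
  simp only [map_pow, phi_X', mul_pow, map_mul, map_prod, ← pow_mul]
  rw [Finset.prod_mul_distrib, Finset.prod_pow_eq_pow_sum, h3]
  ring

theorem coeff_phi (s : Finset σ) (f : MvPolynomial σ K) (j : ℕ) (a : σ →₀ ℕ) :
    coeff a ((phi K s f).coeff j) = if sdeg s a = j then coeff a f else 0 := by
  induction f using MvPolynomial.induction_on' with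
  | monomial b c =>
    rw [phi_monomial, Polynomial.coeff_X_pow_mul']
    by_cases hj : sdeg s b ≤ j
    · rw [if_pos hj, Polynomial.coeff_C]
      by_cases hz : j - sdeg s b = 0
      · rw [if_pos hz]
        have : sdeg s b = j := by omega
        rw [coeff_monomial]
        by_cases hba : b = a
        · subst hba; simp [this]
        · simp [hba]
      · rw [if_neg hz, coeff_zero, coeff_monomial]
        by_cases hba : b = a
        · subst hba
          rw [if_neg (by omega)]
        · simp [hba]
    · rw [if_neg hj, coeff_zero, coeff_monomial]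
      by_cases hba : b = a
      · subst hba
        rw [if_neg (by omega)]
      · simp [hba]
  | add p q hp hq =>
    rw [map_add, Polynomial.coeff_add, coeff_add, hp, hq, coeff_add]
    split_ifs <;> simp

theorem X_pow_dvd_phi_iff (s : Finset σ) (f : MvPolynomial σ K) (k : ℕ) :
    Polynomial.X ^ k ∣ phi K s f ↔ ∀ a, coeff a f ≠ 0 → k ≤ sdeg s a := by
  rw [Polynomial.X_pow_dvd_iff]
  constructor
  · intro h a ha
    by_contra hk
    push Not at hk
    have h1 := congrArg (coeff a) (h _ hk)
    rw [coeff_phi, if_pos rfl, coeff_zero] at h1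
    exact ha h1
  · intro h d hd
    ext a
    rw [coeff_phi, coeff_zero]
    split_ifs with hs
    · by_contra hne
      exact absurd (h a hne) (by omega)
    · rfl

theorem mem_varI_pow_iff (s : Finset σ) (f : MvPolynomial σ K) (k : ℕ) :
    f ∈ varI K s ^ k ↔ ∀ a, coeff a f ≠ 0 → k ≤ sdeg s a := by
  constructor
  · intro hf
    rw [← X_pow_dvd_phi_iff]
    have h1 : varI K s ≤ Ideal.comap (phi K s).toRingHom (Ideal.span {Polynomial.X}) := by
      rw [varI, Ideal.span_le]
      rintro _ ⟨v, hv, rfl⟩
      change phi K s (X v) ∈ Ideal.span {Polynomial.X}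
      rw [phi_X, if_pos (by simpa using hv)]
      exact Ideal.mul_mem_right _ _ (Ideal.mem_span_singleton_self _)
    have h2 : f ∈ Ideal.comap (phi K s).toRingHom (Ideal.span {Polynomial.X} ^ k) := by
      apply Ideal.le_comap_pow
      exact Ideal.pow_right_mono h1 k hf
    have h3 : phi K s f ∈ Ideal.span {(Polynomial.X : Polynomial (MvPolynomial σ K))} ^ k := h2
    rw [Ideal.span_singleton_pow, Ideal.mem_span_singleton] at h3
    exact h3
  · intro h
    rw [f.as_sum]
    apply Ideal.sum_mem
    intro a ha
    have hk := h a (by simpa [mem_support_iff] using ha)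
    have h1 : (monomial a (coeff a f) : MvPolynomial σ K) =
        (∏ v ∈ s, X v ^ a v) * (C (coeff a f) * ∏ v ∈ a.support \ s, X v ^ a v) := by
      rw [monomial_eq, Finsupp.prod]
      have : ∏ v ∈ a.support, (X v : MvPolynomial σ K) ^ a v
          = (∏ v ∈ s, X v ^ a v) * ∏ v ∈ a.support \ s, X v ^ a v := by
        rw [← Finset.prod_union Finset.disjoint_sdiff, Finset.union_sdiff_self_eq_union]
        apply Finset.prod_subset Finset.subset_union_right
        intro v _ hv
        rw [Finsupp.notMem_support_iff.1 hv, pow_zero]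
      rw [this]; ring
    rw [h1]
    apply Ideal.mul_mem_right
    have h2 : ∏ v ∈ s, (X v : MvPolynomial σ K) ^ a v ∈ ∏ v ∈ s, varI K s ^ a v := by
      apply Ideal.prod_mem_prod
      intro v hv
      exact Ideal.pow_mem_pow (Ideal.subset_span (Set.mem_image_of_mem _ (by simpa using hv))) _
    rw [Finset.prod_pow_eq_pow_sum] at h2
    exact Ideal.pow_le_pow_right hk h2

theorem primary (s : Finset σ) {f g : MvPolynomial σ K} {k : ℕ} (hg : g ∉ varI K s)
    (hf : f ∉ varI K s ^ k) : g * f ∉ varI K s ^ k := by
  intro h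
  apply hf
  rw [mem_varI_pow_iff, ← X_pow_dvd_phi_iff] at h ⊢
  rw [map_mul] at h
  refine Prime.pow_dvd_of_dvd_mul_left Polynomial.prime_X k ?_ h
  intro hd
  apply hg
  rw [← pow_one (varI K s), mem_varI_pow_iff, ← X_pow_dvd_phi_iff, pow_one]
  exact hd

theorem varI_ne_top (s : Finset σ) : varI K s ≠ ⊤ := by
  intro h
  have h1 : (1 : MvPolynomial σ K) ∈ varI K s ^ 1 := by rw [pow_one, h]; trivial
  rw [mem_varI_pow_iff] at h1
  have := h1 0 (by simp)
  simp [sdeg] at this

theorem varI_prime (s : Finset σ) : (varI K s).IsPrime := by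
  refine Ideal.isPrime_iff.2 ⟨varI_ne_top s, ?_⟩
  intro x y hxy
  by_contra h
  push Not at h
  have := primary (k := 1) s h.1 (by rw [pow_one]; exact h.2)
  rw [pow_one] at this
  exact this hxy

theorem monomial_mem_iff (s : Finset σ) (a : σ →₀ ℕ) (k : ℕ) :
    (monomial a 1 : MvPolynomial σ K) ∈ varI K s ^ k ↔ k ≤ sdeg s a := by
  rw [mem_varI_pow_iff]
  constructor
  · intro h
    exact h a (by simp)
  · intro h b hb
    rw [coeff_monomial] at hb
    split_ifs at hb with hab
    · rw [← hab]; exact h
    · exact absurd rfl hb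

end Q37.VNum
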