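import Pool.Agent.Q37.VNum.Order

/-! The cover ideal of the double star with two leaves at each of the two centres. -/

open MvPolynomial

namespace Q37.VNum

variable {K : Type*} [Field K]

/-- The edges of the double star on the vertices `0, …, 5` with centres `0` and `1`. -/
def edge : Fin 5 → Finset (Fin 6) := ![{0, 1}, {0, 2}, {0, 3}, {1, 4}, {1, 5}]

/-- The cover ideal of the double star. -/
noncomputable def starJ (K : Type*) [Field K] : Ideal (MvPolynomial (Fin 6) K) :=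
  Ideal.span {X 0 * X 1, X 0 * X 4 * X 5, X 1 * X 2 * X 3}

theorem starJ_le (i : Fin 5) : starJ K ≤ varI K (edge i) := by
  rw [starJ, Ideal.span_le]
  have hX : ∀ v ∈ edge i, (X v : MvPolynomial (Fin 6) K) ∈ varI K (edge i) := by
    intro v hv
    exact Ideal.subset_span (Set.mem_image_of_mem _ (by simpa using hv))
  rintro f (rfl | rfl | rfl)
  · fin_cases i
    · exact Ideal.mul_mem_right _ _ (hX 0 (by decide))
    · exact Ideal.mul_mem_right _ _ (hX 0 (by decide))
    · exact Ideal.mul_mem_right _ _ (hX 0 (by decide))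
    · exact Ideal.mul_mem_left _ _ (hX 1 (by decide))
    · exact Ideal.mul_mem_left _ _ (hX 1 (by decide))
  · fin_cases i
    · exact Ideal.mul_mem_right _ _ (Ideal.mul_mem_right _ _ (hX 0 (by decide)))
    · exact Ideal.mul_mem_right _ _ (Ideal.mul_mem_right _ _ (hX 0 (by decide)))
    · exact Ideal.mul_mem_right _ _ (Ideal.mul_mem_right _ _ (hX 0 (by decide)))
    · exact Ideal.mul_mem_right _ _ (Ideal.mul_mem_left _ _ (hX 4 (by decide)))
    · exact Ideal.mul_mem_left _ _ (hX 5 (by decide))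
  · fin_cases i
    · exact Ideal.mul_mem_right _ _ (Ideal.mul_mem_right _ _ (hX 1 (by decide)))
    · exact Ideal.mul_mem_right _ _ (Ideal.mul_mem_left _ _ (hX 2 (by decide)))
    · exact Ideal.mul_mem_left _ _ (hX 3 (by decide))
    · exact Ideal.mul_mem_right _ _ (Ideal.mul_mem_right _ _ (hX 1 (by decide)))
    · exact Ideal.mul_mem_right _ _ (Ideal.mul_mem_right _ _ (hX 1 (by decide)))

theorem sdeg0 (a : Fin 6 →₀ ℕ) : sdeg (edge 0) a = a 0 + a 1 := by
  simp [sdeg, edge]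

theorem sdeg1 (a : Fin 6 →₀ ℕ) : sdeg (edge 1) a = a 0 + a 2 := by
  simp [sdeg, edge]

theorem sdeg2 (a : Fin 6 →₀ ℕ) : sdeg (edge 2) a = a 0 + a 3 := by
  simp [sdeg, edge]

theorem sdeg3 (a : Fin 6 →₀ ℕ) : sdeg (edge 3) a = a 1 + a 4 := by
  simp [sdeg, edge]

theorem sdeg4 (a : Fin 6 →₀ ℕ) : sdeg (edge 4) a = a 1 + a 5 := by
  simp [sdeg, edge]

/-- Products of the generators. -/
theorem prod_mem (u v w : ℕ) :
    ((X 0 * X 1) ^ u * (X 0 * X 4 * X 5) ^ v * (X 1 * X 2 * X 3) ^ w : MvPolynomial (Fin 6) K) ∈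
      starJ K ^ (u + v + w) := by
  rw [pow_add, pow_add]
  refine Ideal.mul_mem_mul (Ideal.mul_mem_mul (Ideal.pow_mem_pow (Ideal.subset_span ?_) _)
    (Ideal.pow_mem_pow (Ideal.subset_span ?_) _)) (Ideal.pow_mem_pow (Ideal.subset_span ?_) _)
  · simp
  · simp
  · simp

theorem mem_starJ_pow (f : MvPolynomial (Fin 6) K) (k : ℕ) :
    f ∈ starJ K ^ k ↔ ∀ i, f ∈ varI K (edge i) ^ k := by
  constructor
  · intro h i
    exact Ideal.pow_right_mono (starJ_le i) k h
  · intro h
    rw [f.as_sum]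
    apply Ideal.sum_mem
    intro a ha
    have hc : coeff a f ≠ 0 := by simpa [mem_support_iff] using ha
    have e0 := (mem_varI_pow_iff _ _ _).1 (h 0) a hc
    have e1 := (mem_varI_pow_iff _ _ _).1 (h 1) a hc
    have e2 := (mem_varI_pow_iff _ _ _).1 (h 2) a hc
    have e3 := (mem_varI_pow_iff _ _ _).1 (h 3) a hc
    have e4 := (mem_varI_pow_iff _ _ _).1 (h 4) a hc
    rw [sdeg0] at e0
    rw [sdeg1] at e1
    rw [sdeg2] at e2
    rw [sdeg3] at e3
    rw [sdeg4] at e4
    obtain ⟨w, hw⟩ : ∃ w, w = k - a 0 := ⟨_, rfl⟩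
    obtain ⟨v, hv⟩ : ∃ v, v = k - a 1 := ⟨_, rfl⟩
    obtain ⟨u, hu⟩ : ∃ u, u + v + w = k := ⟨k - v - w, by omega⟩
    obtain ⟨r0, hr0⟩ : ∃ r, a 0 = u + v + r := ⟨a 0 - (u + v), by omega⟩
    obtain ⟨r1, hr1⟩ : ∃ r, a 1 = u + w + r := ⟨a 1 - (u + w), by omega⟩
    obtain ⟨r2, hr2⟩ : ∃ r, a 2 = w + r := ⟨a 2 - w, by omega⟩
    obtain ⟨r3, hr3⟩ : ∃ r, a 3 = w + r := ⟨a 3 - w, by omega⟩
    obtain ⟨r4, hr4⟩ : ∃ r, a 4 = v + r := ⟨a 4 - v, by omega⟩
    obtain ⟨r5, hr5⟩ : ∃ r, a 5 = v + r := ⟨a 5 - v, by omega⟩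
    have hm : (monomial a (coeff a f) : MvPolynomial (Fin 6) K) =
        ((X 0 * X 1) ^ u * (X 0 * X 4 * X 5) ^ v * (X 1 * X 2 * X 3) ^ w) *
        (C (coeff a f) * (X 0 ^ r0 * X 1 ^ r1 * X 2 ^ r2 * X 3 ^ r3 * X 4 ^ r4 * X 5 ^ r5)) := by
      rw [monomial_eq, Finsupp.prod_fintype _ _ (fun i => pow_zero _), Fin.prod_univ_six,
        hr0, hr1, hr2, hr3, hr4, hr5]
      ring
    rw [hm, ← hu]
    exact Ideal.mul_mem_right _ _ (prod_mem u v w)

/-- The witness of the prime `(X 0, X 1)`. -/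
noncomputable def wit (K : Type*) [Field K] (k : ℕ) : MvPolynomial (Fin 6) K :=
  X 0 ^ (k - 1) * (X 2 * X 3) * (X 4 * X 5) ^ k

theorem wit_homogeneous (k : ℕ) (hk : 1 ≤ k) : (wit K k).IsHomogeneous (3 * k + 1) := by
  have h : (wit K k).IsHomogeneous (1 * (k - 1) + (1 + 1) + (1 + 1) * k) := by
    apply IsHomogeneous.mul
    · apply IsHomogeneous.mul
      · exact (isHomogeneous_X K 0).pow _
      · exact (isHomogeneous_X K 2).mul (isHomogeneous_X K 3)
    · exact ((isHomogeneous_X K 4).mul (isHomogeneous_X K 5)).pow _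
  have e : 1 * (k - 1) + (1 + 1) + (1 + 1) * k = 3 * k + 1 := by omega
  rw [← e]; exact h

theorem wit_eq (k : ℕ) : wit K k = monomial (Finsupp.single 0 (k - 1) + Finsupp.single 2 1
    + Finsupp.single 3 1 + Finsupp.single 4 k + Finsupp.single 5 k) 1 := by
  rw [wit]
  have h : ∀ (i : Fin 6) (r : ℕ), (monomial (Finsupp.single i r) (1 : K)) = X i ^ r := by
    intro i r
    rw [X_pow_eq_monomial]
  have e : (1 : K) = 1 * 1 * 1 * 1 * 1 := by ring
  rw [e, ← monomial_mul, ← monomial_mul, ← monomial_mul, ← monomial_mul]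
  rw [h, h, h, h, h]
  ring

theorem wit_notMem (k : ℕ) (hk : 1 ≤ k) : wit K k ∉ varI K (edge 0) ^ k := by
  rw [wit_eq, monomial_mem_iff, sdeg0]
  simp
  omega

theorem colon_wit (k : ℕ) (hk : 1 ≤ k) (g : MvPolynomial (Fin 6) K) :
    g * wit K k ∈ starJ K ^ k ↔ g ∈ varI K (edge 0) := by
  constructor
  · intro h
    by_contra hg
    exact primary _ hg (wit_notMem k hk) (((mem_starJ_pow _ _).1 h) 0)
  · intro h
    have hle : varI K (edge 0) ≤ (starJ K ^ k).colon {wit K k} := by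
      rw [varI, Ideal.span_le]
      rintro _ ⟨v, hv, rfl⟩
      change X v ∈ (starJ K ^ k).colon {wit K k}
      rw [Submodule.mem_colon_singleton, smul_eq_mul]
      obtain ⟨j, rfl⟩ : ∃ j, k = j + 1 := ⟨k - 1, by omega⟩
      have hv' : v = 0 ∨ v = 1 := by simpa [edge] using hv
      rcases hv' with rfl | rfl
      · have : (X 0 * wit K (j + 1) : MvPolynomial (Fin 6) K) =
            ((X 0 * X 1) ^ 0 * (X 0 * X 4 * X 5) ^ (j + 1) * (X 1 * X 2 * X 3) ^ 0) *
              (X 2 * X 3) := by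
          rw [wit, Nat.add_sub_cancel]
          ring
        rw [this]
        have h2 := prod_mem (K := K) 0 (j + 1) 0
        rw [show 0 + (j + 1) + 0 = j + 1 by ring] at h2
        exact Ideal.mul_mem_right _ _ h2
      · have : (X 1 * wit K (j + 1) : MvPolynomial (Fin 6) K) =
            ((X 0 * X 1) ^ 0 * (X 0 * X 4 * X 5) ^ j * (X 1 * X 2 * X 3) ^ 1) *
              (X 4 * X 5) := by
          rw [wit, Nat.add_sub_cancel]
          ring
        rw [this]
        have h2 := prod_mem (K := K) 0 j 1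
        rw [show 0 + j + 1 = j + 1 by ring] at h2
        exact Ideal.mul_mem_right _ _ h2
    have := hle h
    rwa [Submodule.mem_colon_singleton, smul_eq_mul] at this

theorem X_notMem {s : Finset (Fin 6)} {v : Fin 6} (hv : v ∉ s) :
    (X v : MvPolynomial (Fin 6) K) ∉ varI K s := by
  intro h
  rw [← pow_one (varI K s), X, monomial_mem_iff] at h
  have : sdeg s (Finsupp.single v 1) = 0 := by
    rw [sdeg]
    apply Finset.sum_eq_zero
    intro w hw
    rw [Finsupp.single_apply, if_neg]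
    rintro rfl
    exact hv hw
  omega

/-- Every element with colon ideal `(X 0, X 1)` has degree at least `3 k + 1`. -/
theorem lower (k d : ℕ) (f : MvPolynomial (Fin 6) K) (hd : f.IsHomogeneous d)
    (hf : ∀ g, g * f ∈ starJ K ^ k ↔ g ∈ varI K (edge 0)) : 3 * k + 1 ≤ d := by
  have h0 : (X 0 : MvPolynomial (Fin 6) K) ∈ varI K (edge 0) :=
    Ideal.subset_span (Set.mem_image_of_mem _ (by simp [edge]))
  have h1 : (X 1 : MvPolynomial (Fin 6) K) ∈ varI K (edge 0) :=
    Ideal.subset_span (Set.mem_image_of_mem _ (by simp [edge]))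
  have key : ∀ (i : Fin 5) (v : Fin 6), (X v : MvPolynomial (Fin 6) K) ∈ varI K (edge 0) →
      v ∉ edge i → f ∈ varI K (edge i) ^ k := by
    intro i v hv hi
    by_contra hne
    exact primary _ (X_notMem hi) hne ((mem_starJ_pow _ _).1 ((hf _).2 hv) i)
  have m1 := key 1 1 h1 (by decide)
  have m2 := key 2 1 h1 (by decide)
  have m3 := key 3 0 h0 (by decide)
  have m4 := key 4 0 h0 (by decide)
  have m0 : f ∉ varI K (edge 0) ^ k := by
    intro hm
    have : (1 : MvPolynomial (Fin 6) K) * f ∈ starJ K ^ k := by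
      rw [one_mul, mem_starJ_pow]
      intro i
      fin_cases i
      · exact hm
      · exact m1
      · exact m2
      · exact m3
      · exact m4
    exact varI_ne_top _ ((Ideal.eq_top_iff_one _).2 ((hf 1).1 this))
  rw [mem_varI_pow_iff] at m0 m1 m2 m3 m4
  push Not at m0
  obtain ⟨a, ha, hak⟩ := m0
  have e1 := m1 a ha
  have e2 := m2 a ha
  have e3 := m3 a ha
  have e4 := m4 a ha
  rw [sdeg0] at hak
  rw [sdeg1] at e1
  rw [sdeg2] at e2
  rw [sdeg3] at e3
  rw [sdeg4] at e4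
  have hda := hd ha
  have hsum : a 0 + a 1 + a 2 + a 3 + a 4 + a 5 = d := by
    rw [← hda]
    simp [Finsupp.weight_apply, Finsupp.sum_fintype, Fin.sum_univ_six]
  omega

/-- The associated primes of the powers are among the five edge primes. -/
theorem prime_of_colon (k : ℕ) (q : Ideal (MvPolynomial (Fin 6) K)) (hq : q.IsPrime)
    (f : MvPolynomial (Fin 6) K) (hf : ∀ g, g * f ∈ starJ K ^ k ↔ g ∈ q) :
    ∃ i, q = varI K (edge i) := by
  have h1 : ∃ i, ∀ g, g * f ∈ varI K (edge i) ^ k → g ∈ q := by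
    by_contra hcon
    push Not at hcon
    choose g hg hgq using hcon
    have hprod : ∏ i, g i ∉ q := by
      intro h
      obtain ⟨i, -, hi⟩ := (hq.prod_mem_iff).1 h
      exact hgq i hi
    apply hprod
    rw [← hf, mem_starJ_pow]
    intro i
    rw [← Finset.mul_prod_erase _ _ (Finset.mem_univ i), mul_assoc, mul_comm _ f, ← mul_assoc]
    exact Ideal.mul_mem_right _ _ (hg i)
  obtain ⟨i, hi⟩ := h1
  refine ⟨i, le_antisymm ?_ ?_⟩
  · intro g hg
    by_contra hne
    have hfi : f ∉ varI K (edge i) ^ k := by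
      intro h
      exact hq.ne_top ((Ideal.eq_top_iff_one _).2 (hi 1 (by rwa [one_mul])))
    exact primary _ hne hfi ((mem_starJ_pow _ _).1 ((hf g).2 hg) i)
  · apply hq.le_of_pow_le (n := k)
    intro g hg
    exact hi g (Ideal.mul_mem_right _ _ hg)

end Q37.VNum
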